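import Pool.Agent.Helper89.A8.Assembly

/-!
MP_93c1ff_al (recognition of `Aut(J₂)` by element orders), the case left open by the reduction of
Mazurov and Shi: extensions of 2-groups by `A₈`.
-/

namespace Pool.Agent.Results.MP_93c1ff_al.TwoGroupsByA8

open Pool.Agent.A8

/-- A finite group `G` with a normal 2-subgroup `K`, `G / K ≅ A₈`, and without elements of order
16, 20, 28, 30, has no element of order 24. -/
theorem result (G : Type*) [Group G] [Finite G] (K : Subgroup G) [K.Normal]
    (hK : IsPGroup 2 K) (e : G ⧸ K ≃* alternatingGroup (Fin 8))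
    (h16 : ∀ g : G, orderOf g ≠ 16) (h20 : ∀ g : G, orderOf g ≠ 20)
    (h28 : ∀ g : G, orderOf g ≠ 28) (h30 : ∀ g : G, orderOf g ≠ 30) :
    ∀ g : G, orderOf g ≠ 24 :=
  final1 main bA8 G K hK e h16 h20 h28 h30

end Pool.Agent.Results.MP_93c1ff_al.TwoGroupsByA8
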